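import Pool.Agent.V1148.ST.G

set_option autoImplicit false

/-!
# Divisibility of the Hilbert series does not imply divisibility of the Poincare polynomials
-/

namespace Pool.Agent.Results.MP_1e7c4a_ag.ConverseFails

open MvPolynomial Pool.Agent.V1148 Pool.Agent.V1148.ST

/-- Over every field of characteristic zero (in particular over every algebraically closed one)
there are an arrangement `A` of six planes in `K^3`, a plane `H` of `A` and a quadratic form
`f ∈ U_2(A)` such that the Hilbert series of the Solomon-Terao algebra of the restriction `A^H`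
(and of `f` restricted to `H`) divides the Hilbert series of the Solomon-Terao algebra of `A` and
`f`, although the Poincare polynomial of `A^H` does not divide that of `A`. -/
theorem result (K : Type*) [Field K] [CharZero K] :
    ∃ (A : Fin 6 → Fin 3 → K) (i : Fin 6) (φ : (Fin 2 → K) →ₗ[K] (Fin 3 → K))
      (B : Fin 2 → Fin 2 → K) (f : MvPolynomial (Fin 3) K)
      (p q P Q : Polynomial ℚ),
      IsArrangement A ∧ IsRestriction A i φ B ∧ InU A 2 f ∧
      IsPoincare A p ∧ IsPoincare B q ∧
      IsHilb A f P ∧ IsHilb B (resPoly f φ) Q ∧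
      Q ∣ P ∧ ¬ q ∣ p := by
  refine ⟨A6, 5, phi, B2, eta, _, _, _, _, A6_arr, restr, inU, poincare_A6, poincare_B2,
    isHilb_A6, isHilb_B2, ?_, ?_⟩
  · exact ⟨(1 + Polynomial.X + Polynomial.X ^ 2) * (1 + Polynomial.X ^ 2), by ring⟩
  · rintro ⟨r, hr⟩
    have h0 : (1 + Polynomial.X : Polynomial ℚ) ≠ 0 := by
      intro h
      have := congrArg (Polynomial.eval 0) h
      simp at this
    have h1 : (1 + 2 * Polynomial.X) * (1 + 3 * Polynomial.X) =
        (1 + Polynomial.X : Polynomial ℚ) * r := by
      apply mul_left_cancel₀ h0
      linear_combination hr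
    have h2 := congrArg (Polynomial.eval (-1)) h1
    simp at h2
    norm_num at h2

end Pool.Agent.Results.MP_1e7c4a_ag.ConverseFails
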